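import Pool.Agent.Tdc637.Growth

/-!
# Balls in finitely generated virtually abelian groups are doubling
-/

namespace Pool.Agent.Tdc637

open Filter Topology Pointwise

section Abelian

variable {A : Type*} [CommGroup A] [DecidableEq A] {Y : Finset A}

lemma exists_exponents {n : ℕ} {g : A} (hg : g ∈ Y ^ n) :
    ∃ v : Y → ℕ, ∑ y : Y, v y = n ∧ g = ∏ y : Y, (y : A) ^ v y := by
  classical
  induction n generalizing g with
  | zero =>
    rw [pow_zero, Finset.mem_one] at hg
    exact ⟨0, by simp, by simp [hg]⟩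
  | succ n ih =>
    rw [pow_succ] at hg
    obtain ⟨h, hh, y, hy, rfl⟩ := Finset.mem_mul.mp hg
    obtain ⟨v, hv1, hv2⟩ := ih hh
    refine ⟨v + Pi.single ⟨y, hy⟩ 1, ?_, ?_⟩
    · simp only [Pi.add_apply, Finset.sum_add_distrib, hv1]
      congr 1
      exact Fintype.sum_pi_single' _ _
    · simp only [Pi.add_apply, pow_add, Finset.prod_mul_distrib, ← hv2]
      congr 1
      rw [Finset.prod_eq_single (⟨y, hy⟩ : Y)]
      · simp
      · intro z _ hz
        rw [Pi.single_eq_of_ne hz, pow_zero]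
      · intro h'; exact absurd (Finset.mem_univ _) h'

lemma prod_mem_pow (h1 : (1 : A) ∈ Y) {n : ℕ} {v : Y → ℕ} (hv : ∑ y : Y, v y ≤ n) :
    ∏ y : Y, (y : A) ^ v y ∈ Y ^ n := by
  apply pow_mono h1 hv
  have h2 : ∏ y : Y, (y : A) ^ v y ∈ ∏ y : Y, ((Y : Set A) ^ v y) :=
    Set.finsetProd_mem_finsetProd _ _ _ fun y _ => Set.pow_mem_pow (Finset.mem_coe.mpr y.2)
  rw [Finset.prod_pow_eq_pow_sum] at h2
  rw [← Finset.mem_coe, Finset.coe_pow]
  exact h2

/-- Covering in abelian groups. -/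
lemma abelian_doubling (h1 : (1 : A) ∈ Y) (M k : ℕ) :
    (Y ^ (M * k)).card ≤ (M * Y.card + 1) ^ Y.card * (Y ^ k).card := by
  classical
  set c : ℕ := k / Y.card + 1 with hc
  have hYpos : 0 < Y.card := Finset.card_pos.mpr ⟨1, h1⟩
  have hck : k < c * Y.card := by
    rw [hc]
    have := Nat.div_add_mod k Y.card
    have h2 := Nat.mod_lt k hYpos
    nlinarith
  have hcpos : 0 < c := Nat.succ_pos _
  let Q : Finset A := (Fintype.piFinset fun _ : Y => Finset.range (M * Y.card + 1)).image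
    (fun v => ∏ y : Y, ((y : A) ^ c) ^ v y)
  have hQ : Q.card ≤ (M * Y.card + 1) ^ Y.card := by
    refine Finset.card_image_le.trans ?_
    rw [Fintype.card_piFinset, Finset.prod_const, Finset.card_range, Finset.card_univ,
      Fintype.card_coe]
  have hsub : Y ^ (M * k) ⊆ Q * Y ^ k := by
    intro g hg
    obtain ⟨v, hv1, hv2⟩ := exists_exponents hg
    have hdecomp : g = (∏ y : Y, ((y : A) ^ c) ^ (v y / c)) * ∏ y : Y, (y : A) ^ (v y % c) := by
      rw [hv2, ← Finset.prod_mul_distrib]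
      refine Finset.prod_congr rfl fun y _ => ?_
      rw [← pow_mul, ← pow_add, Nat.div_add_mod]
    rw [hdecomp]
    refine Finset.mul_mem_mul ?_ ?_
    · refine Finset.mem_image.mpr ⟨fun y => v y / c, ?_, rfl⟩
      rw [Fintype.mem_piFinset]
      intro y
      rw [Finset.mem_range]
      have h3 : v y ≤ M * k := by
        rw [← hv1]
        exact Finset.single_le_sum (f := v) (fun _ _ => Nat.zero_le _) (Finset.mem_univ y)
      have h4 : v y / c ≤ M * Y.card := by
        refine Nat.div_le_of_le_mul ?_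
        calc v y ≤ M * k := h3
          _ ≤ M * (c * Y.card) := Nat.mul_le_mul_left _ hck.le
          _ = c * (M * Y.card) := by ring
      omega
    · refine prod_mem_pow h1 ?_
      calc ∑ y : Y, v y % c ≤ ∑ _y : Y, (k / Y.card) := Finset.sum_le_sum fun y _ => by
            have := Nat.mod_lt (v y) hcpos
            omega
        _ = Y.card * (k / Y.card) := by
            rw [Finset.sum_const, Finset.card_univ, Fintype.card_coe, smul_eq_mul]
        _ ≤ k := Nat.mul_div_le _ _
  calc (Y ^ (M * k)).card ≤ (Q * Y ^ k).card := Finset.card_le_card hsub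
    _ ≤ Q.card * (Y ^ k).card := Finset.card_mul_le
    _ ≤ _ := Nat.mul_le_mul_right _ hQ

end Abelian

section VirtAb

variable {G : Type*} [Group G] [DecidableEq G] {S : Finset G}

/-- Every element lies in some ball. -/
lemma exists_mem_pow (h1 : (1 : G) ∈ S) (hinv : ∀ x ∈ S, x⁻¹ ∈ S)
    (hgen : Subgroup.closure (S : Set G) = ⊤) (g : G) : ∃ n, g ∈ S ^ n := by
  have hg : g ∈ Subgroup.closure (S : Set G) := by rw [hgen]; exact Subgroup.mem_top g
  induction hg using Subgroup.closure_induction with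
  | mem x hx => exact ⟨1, by rw [pow_one]; exact hx⟩
  | one => exact ⟨0, by rw [pow_zero]; exact Finset.mem_one.mpr rfl⟩
  | mul x y _ _ hx hy =>
    obtain ⟨a, ha⟩ := hx
    obtain ⟨b, hb⟩ := hy
    exact ⟨a + b, by rw [pow_add]; exact Finset.mul_mem_mul ha hb⟩
  | inv x _ hx =>
    obtain ⟨a, ha⟩ := hx
    exact ⟨a, inv_mem_pow hinv ha⟩

lemma exists_pow_superset (h1 : (1 : G) ∈ S) (hinv : ∀ x ∈ S, x⁻¹ ∈ S)
    (hgen : Subgroup.closure (S : Set G) = ⊤) (F : Finset G) : ∃ n, F ⊆ S ^ n := by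
  induction F using Finset.induction_on with
  | empty => exact ⟨0, Finset.empty_subset _⟩
  | insert a F _ ih =>
    obtain ⟨n, hn⟩ := ih
    obtain ⟨k, hk⟩ := exists_mem_pow h1 hinv hgen a
    refine ⟨max n k, ?_⟩
    intro x hx
    rcases Finset.mem_insert.mp hx with rfl | hx
    · exact pow_mono h1 (le_max_right _ _) hk
    · exact pow_mono h1 (le_max_left _ _) (hn hx)

/-- Doubling for virtually abelian groups. -/
theorem virt_doubling (h1 : (1 : G) ∈ S) (hinv : ∀ x ∈ S, x⁻¹ ∈ S)
    (hgen : Subgroup.closure (S : Set G) = ⊤) (A : Subgroup G) [A.Normal] [A.FiniteIndex]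
    (hA : ∀ a ∈ A, ∀ b ∈ A, a * b = b * a) :
    ∃ D : ℕ, ∀ k, 1 ≤ k → (S ^ (6 * k)).card ≤ D * (S ^ k).card := by
  classical
  have : Fintype (G ⧸ A) := Fintype.ofFinite _
  let τ : G → G := fun g => ((QuotientGroup.mk g : G ⧸ A)).out
  have hτ : ∀ g, (QuotientGroup.mk (τ g) : G ⧸ A) = QuotientGroup.mk g := fun g =>
    QuotientGroup.out_eq' _
  let T : Finset G := Finset.univ.image (fun c : G ⧸ A => c.out)
  have hτT : ∀ g, τ g ∈ T := fun g => Finset.mem_image_of_mem _ (Finset.mem_univ _)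
  let YG : Finset G := (T * S * T⁻¹).filter (fun g => g ∈ A)
  let Y : Finset A := YG.subtype (fun g => g ∈ A)
  have hYimg : Y.image A.subtype = YG := by
    ext g
    rw [Finset.mem_image]
    constructor
    · rintro ⟨⟨a, ha⟩, h, rfl⟩
      exact Finset.mem_subtype.mp h
    · intro h
      exact ⟨⟨g, (Finset.mem_filter.mp h).2⟩, Finset.mem_subtype.mpr h, rfl⟩
  let _ : CommGroup A := { (inferInstance : Group A) with
    mul_comm := fun a b => Subtype.ext (hA a a.2 b b.2) }
  have hYpow : ∀ n, (YG ^ n).card = (Y ^ n).card := by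
    intro n
    rw [← hYimg, ← Finset.image_pow, Finset.card_image_of_injective _ A.subtype_injective]
  have h1YG : (1 : G) ∈ YG := by
    refine Finset.mem_filter.mpr ⟨?_, A.one_mem⟩
    have : (1 : G) = τ 1 * 1 * (τ 1)⁻¹ := by group
    rw [this]
    exact Finset.mul_mem_mul (Finset.mul_mem_mul (hτT 1) h1) (Finset.inv_mem_inv (hτT 1))
  have h1Y : (1 : A) ∈ Y := Finset.mem_subtype.mpr h1YG
  -- upper bound
  have hup : ∀ n, ∀ g ∈ S ^ n, τ 1 * g ∈ YG ^ n * T := by
    intro n
    induction n with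
    | zero =>
      intro g hg
      rw [pow_zero, Finset.mem_one] at hg
      rw [hg, mul_one, pow_zero, one_mul]
      exact hτT 1
    | succ n ih =>
      intro g hg
      rw [pow_succ] at hg
      obtain ⟨h, hh, x, hx, rfl⟩ := Finset.mem_mul.mp hg
      obtain ⟨y, hy, t, ht, hyt⟩ := Finset.mem_mul.mp (ih h hh)
      have h2 : τ 1 * (h * x) = (y * (t * x * (τ (t * x))⁻¹)) * τ (t * x) := by
        rw [← mul_assoc, ← hyt]; group
      rw [h2, pow_succ]
      refine Finset.mul_mem_mul (Finset.mul_mem_mul hy ?_) (hτT _)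
      refine Finset.mem_filter.mpr ⟨Finset.mul_mem_mul (Finset.mul_mem_mul ht hx)
        (Finset.inv_mem_inv (hτT _)), ?_⟩
      rw [← QuotientGroup.eq_one_iff, QuotientGroup.mk_mul, QuotientGroup.mk_inv, hτ,
        mul_inv_cancel]
  have hupc : ∀ n, (S ^ n).card ≤ (Y ^ n).card * T.card := by
    intro n
    rw [← hYpow]
    calc (S ^ n).card ≤ (YG ^ n * T).card :=
          Finset.card_le_card_of_injOn (fun g => τ 1 * g) (hup n)
            (fun a _ b _ hab => mul_left_cancel hab)
      _ ≤ _ := Finset.card_mul_le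
  -- lower bound
  obtain ⟨c, hc⟩ := exists_pow_superset h1 hinv hgen YG
  have hlow : ∀ k, (Y ^ k).card ≤ (S ^ ((c + 1) * k)).card := by
    intro k
    rw [← hYpow]
    refine Finset.card_le_card ?_
    rw [pow_mul]
    exact Finset.pow_subset_pow_left (hc.trans (pow_mono h1 (Nat.le_succ c)))
  refine ⟨T.card * (12 * (c + 1) * Y.card + 1) ^ Y.card + (S ^ (6 * (c + 1))).card,
    fun k hk => ?_⟩
  have hSpos : 1 ≤ (S ^ k).card := Finset.card_pos.mpr ⟨1, Finset.one_mem_pow h1⟩
  rcases lt_or_ge k (c + 1) with hkc | hkc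
  · calc (S ^ (6 * k)).card ≤ (S ^ (6 * (c + 1))).card :=
          Finset.card_le_card (pow_mono h1 (by omega))
      _ = (S ^ (6 * (c + 1))).card * 1 := (mul_one _).symm
      _ ≤ (T.card * (12 * (c + 1) * Y.card + 1) ^ Y.card + (S ^ (6 * (c + 1))).card) *
          (S ^ k).card := Nat.mul_le_mul (Nat.le_add_left _ _) hSpos
  · set j := k / (c + 1) with hj
    have hdm := Nat.div_add_mod k (c + 1)
    have hmod := Nat.mod_lt k (Nat.succ_pos c)
    have hj1 : 1 ≤ j := Nat.div_pos hkc (Nat.succ_pos c)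
    rw [← hj] at hdm
    have hjk : (c + 1) * j ≤ k := by omega
    have h6k : 6 * k ≤ (12 * (c + 1)) * j := by nlinarith
    calc (S ^ (6 * k)).card ≤ (S ^ ((12 * (c + 1)) * j)).card :=
          Finset.card_le_card (pow_mono h1 h6k)
      _ ≤ (Y ^ ((12 * (c + 1)) * j)).card * T.card := hupc _
      _ ≤ ((12 * (c + 1) * Y.card + 1) ^ Y.card * (Y ^ j).card) * T.card :=
          Nat.mul_le_mul_right _ (abelian_doubling h1Y _ _)
      _ = (T.card * (12 * (c + 1) * Y.card + 1) ^ Y.card) * (Y ^ j).card := by ring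
      _ ≤ (T.card * (12 * (c + 1) * Y.card + 1) ^ Y.card) * (S ^ k).card :=
          Nat.mul_le_mul_left _ ((hlow j).trans (Finset.card_le_card (pow_mono h1 hjk)))
      _ ≤ _ := Nat.mul_le_mul_right _ (Nat.le_add_right _ _)

end VirtAb

end Pool.Agent.Tdc637
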