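import Pool.Agent.Tdc637.Doubling

/-!
# Equidistribution of cosets in balls
-/

namespace Pool.Agent.Tdc637

open Filter Topology Pointwise

variable {G : Type*} [Group G] [DecidableEq G] {S : Finset G}

/-- Number of elements of the ball in a coset. -/
noncomputable def cc (S : Finset G) (N : Subgroup G) (n : ℕ) (c : G ⧸ N) : ℕ :=
  open Classical in ((S ^ n).filter (fun g => (QuotientGroup.mk g : G ⧸ N) = c)).card

theorem cc_le (h1 : (1 : G) ∈ S) (hinv : ∀ x ∈ S, x⁻¹ ∈ S)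
    (hgen : Subgroup.closure (S : Set G) = ⊤) (N : Subgroup G) [N.Normal] [N.FiniteIndex] :
    ∃ r : ℕ, ∀ n (c c' : G ⧸ N), cc S N n c ≤ cc S N (n + r) c' := by
  classical
  have : Fintype (G ⧸ N) := Fintype.ofFinite _
  obtain ⟨r, hr⟩ := exists_pow_superset h1 hinv hgen
    ((Finset.univ : Finset ((G ⧸ N) × (G ⧸ N))).image (fun p => p.2.out * (p.1.out)⁻¹))
  refine ⟨r, fun n c c' => ?_⟩
  have hg : c'.out * (c.out)⁻¹ ∈ S ^ r :=
    hr (Finset.mem_image.mpr ⟨(c, c'), Finset.mem_univ _, rfl⟩)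
  unfold cc
  refine Finset.card_le_card_of_injOn (fun x => c'.out * (c.out)⁻¹ * x) ?_
    (fun a _ b _ hab => mul_left_cancel hab)
  intro x hx
  rw [Finset.mem_coe, Finset.mem_filter] at hx ⊢
  refine ⟨?_, ?_⟩
  · rw [add_comm, pow_add]
    exact Finset.mul_mem_mul hg hx.1
  · show ((c'.out * (c.out)⁻¹ * x : G) : G ⧸ N) = c'
    rw [QuotientGroup.mk_mul, QuotientGroup.mk_mul, QuotientGroup.mk_inv, hx.2,
      QuotientGroup.out_eq', QuotientGroup.out_eq', inv_mul_cancel_right]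

lemma sum_cc (S : Finset G) (N : Subgroup G) [N.Normal] [N.FiniteIndex] [Fintype (G ⧸ N)]
    (n : ℕ) : ∑ c : G ⧸ N, cc S N n c = (S ^ n).card := by
  classical
  unfold cc
  symm
  have h := Finset.card_eq_sum_card_fiberwise (s := S ^ n) (t := (Finset.univ : Finset (G ⧸ N)))
    (f := fun g => (QuotientGroup.mk g : G ⧸ N)) (fun _ _ => Finset.mem_univ _)
  convert h

/-- Equidistribution. -/
theorem equidist (h1 : (1 : G) ∈ S) (hinv : ∀ x ∈ S, x⁻¹ ∈ S)
    (hgen : Subgroup.closure (S : Set G) = ⊤)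
    {D : ℕ} (hD : ∀ k, 1 ≤ k → (S ^ (6 * k)).card ≤ D * (S ^ k).card)
    (N : Subgroup G) [N.Normal] [N.FiniteIndex] (c : G ⧸ N) :
    Tendsto (fun n => (cc S N n c : ℝ) / (S ^ n).card) atTop (𝓝 (1 / Nat.card (G ⧸ N))) := by
  classical
  have : Fintype (G ⧸ N) := Fintype.ofFinite _
  obtain ⟨r, hr⟩ := cc_le h1 hinv hgen N
  have hcpos : (0 : ℝ) < Nat.card (G ⧸ N) := by exact_mod_cast Nat.card_pos
  have hpos : ∀ n, (0 : ℝ) < (S ^ n).card := fun n => by
    have : 0 < (S ^ n).card := Finset.card_pos.mpr ⟨1, Finset.one_mem_pow h1⟩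
    exact_mod_cast this
  have hup : ∀ n, (Nat.card (G ⧸ N) : ℝ) * cc S N n c ≤ (S ^ (n + r)).card := by
    intro n
    have h2 : Nat.card (G ⧸ N) * cc S N n c ≤ (S ^ (n + r)).card := by
      rw [← sum_cc S N (n + r), Nat.card_eq_fintype_card]
      calc Fintype.card (G ⧸ N) * cc S N n c = ∑ _c' : G ⧸ N, cc S N n c := by
            rw [Finset.sum_const, Finset.card_univ, smul_eq_mul]
        _ ≤ _ := Finset.sum_le_sum fun c' _ => hr n c c'
    exact_mod_cast h2
  have hlow : ∀ n, ((S ^ n).card : ℝ) ≤ Nat.card (G ⧸ N) * cc S N (n + r) c := by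
    intro n
    have h2 : (S ^ n).card ≤ Nat.card (G ⧸ N) * cc S N (n + r) c := by
      rw [← sum_cc S N n, Nat.card_eq_fintype_card]
      calc ∑ c' : G ⧸ N, cc S N n c' ≤ ∑ _c' : G ⧸ N, cc S N (n + r) c :=
            Finset.sum_le_sum fun c' _ => hr n c' c
        _ = _ := by rw [Finset.sum_const, Finset.card_univ, smul_eq_mul]
    exact_mod_cast h2
  rw [← tendsto_add_atTop_iff_nat r]
  have hR := ratio_add h1 hinv hD r
  have hR2 : Tendsto (fun n => (((S ^ (n + r)).card : ℝ) / (S ^ (n + r + r)).card)⁻¹) atTop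
      (𝓝 (1 : ℝ)) := by
    have := (hR.comp (tendsto_add_atTop_nat r)).inv₀ one_ne_zero
    rw [inv_one] at this
    exact this
  refine tendsto_of_tendsto_of_tendsto_of_le_of_le
    (g := fun n => ((S ^ n).card : ℝ) / (S ^ (n + r)).card * (1 / Nat.card (G ⧸ N)))
    (h := fun n => (((S ^ (n + r)).card : ℝ) / (S ^ (n + r + r)).card)⁻¹ *
      (1 / Nat.card (G ⧸ N))) ?_ ?_ ?_ ?_
  · have := hR.mul_const (1 / (Nat.card (G ⧸ N) : ℝ))
    rwa [one_mul] at this
  · have := hR2.mul_const (1 / (Nat.card (G ⧸ N) : ℝ))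
    rwa [one_mul] at this
  · intro n
    show ((S ^ n).card : ℝ) / (S ^ (n + r)).card * (1 / Nat.card (G ⧸ N)) ≤
      (cc S N (n + r) c : ℝ) / (S ^ (n + r)).card
    rw [div_mul_div_comm, mul_one, div_le_div_iff₀ (mul_pos (hpos _) hcpos) (hpos _)]
    have := hlow n
    have h3 := hpos (n + r)
    nlinarith
  · intro n
    show (cc S N (n + r) c : ℝ) / (S ^ (n + r)).card ≤
      (((S ^ (n + r)).card : ℝ) / (S ^ (n + r + r)).card)⁻¹ * (1 / Nat.card (G ⧸ N))
    rw [inv_div, div_mul_div_comm, mul_one, div_le_div_iff₀ (hpos _) (mul_pos (hpos _) hcpos)]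
    have := hup (n + r)
    have h3 := hpos (n + r)
    nlinarith

end Pool.Agent.Tdc637
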