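import Pool.Agent.Tdc637.Quot

/-!
# The degree of twisted commutativity is the infimum over finite quotients
-/

namespace Pool.Agent.Tdc637

open Filter Topology Pointwise

section Inf

variable {G : Type*} [Group G] {φ : G →* G} {A : Subgroup G} [A.Normal]

/-- Good pairs of cosets. -/
def goodSet (φ : G →* G) (A : Subgroup G) [A.Normal] : Set ((G ⧸ A) × (G ⧸ A)) :=
  {p | ∀ x y : G, (x : G ⧸ A) = p.1 → (y : G ⧸ A) = p.2 → x * y = y * φ x}

lemma fib_card {N : Subgroup G} [N.Normal] [N.FiniteIndex] [A.FiniteIndex] (hNA : N ≤ A) :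
    ∃ f : ℕ, (∀ p, (fib hNA p).ncard = f ^ 2) ∧ Nat.card (G ⧸ A) * f = Nat.card (G ⧸ N) := by
  classical
  have : Fintype (G ⧸ N) := Fintype.ofFinite _
  have : Fintype (G ⧸ A) := Fintype.ofFinite _
  have hsurj : Function.Surjective (pr hNA) := by
    intro c
    obtain ⟨x, rfl⟩ := QuotientGroup.mk_surjective c
    exact ⟨(x : G ⧸ N), rfl⟩
  let f1 : G ⧸ A → ℕ := fun s => (Finset.univ.filter (fun c : G ⧸ N => pr hNA c = s)).card
  have hf1 : ∀ s, f1 s = f1 1 := fun s =>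
    MonoidHom.card_fiber_eq_of_mem_range (pr hNA) (hsurj s) (hsurj 1)
  refine ⟨f1 1, fun p => ?_, ?_⟩
  · have h1 : fib hNA p = (((Finset.univ.filter (fun c : G ⧸ N => pr hNA c = p.1)) ×ˢ
        (Finset.univ.filter (fun c : G ⧸ N => pr hNA c = p.2)) : Finset _) : Set _) := by
      ext c
      unfold fib
      simp
    rw [h1, Set.ncard_coe_finset, Finset.card_product, pow_two]
    exact congrArg₂ (· * ·) (hf1 p.1) (hf1 p.2)
  · rw [Nat.card_eq_fintype_card, Nat.card_eq_fintype_card (α := G ⧸ N), ← Finset.card_univ (α := G ⧸ N),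
      Finset.card_eq_sum_card_fiberwise (f := pr hNA) (t := Finset.univ)
        (fun _ _ => Finset.mem_univ _)]
    have : ∑ s : G ⧸ A, (Finset.univ.filter (fun c : G ⧸ N => pr hNA c = s)).card =
        ∑ _s : G ⧸ A, f1 1 := Finset.sum_congr rfl fun s _ => hf1 s
    rw [this, Finset.sum_const, Finset.card_univ, smul_eq_mul]

lemma infTdc_le [A.FiniteIndex] (hA : ∀ a ∈ A, ∀ b ∈ A, a * b = b * a)
    (htf : ∀ a ∈ A, a ≠ 1 → ∀ n : ℕ, 0 < n → a ^ n ≠ 1) (hφA : A ≤ A.comap φ)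
    (hres : ∀ F : Set G, F.Finite → (∀ a ∈ F, a ∈ A ∧ a ≠ 1) →
      ∃ (N : Subgroup G) (_ : N.Normal) (_ : N ≤ N.comap φ), N.FiniteIndex ∧ N ≤ A ∧
        ∀ a ∈ F, a ∉ N) (M : ℕ) (hM : 1 ≤ M) :
    infTdc φ ≤ ((goodSet φ A).ncard : ℝ) / (Nat.card (G ⧸ A) : ℝ) ^ 2 + 1 / M := by
  classical
  have : Fintype (G ⧸ A) := Fintype.ofFinite _
  -- choose the finite set
  have hF : ∀ p : (G ⧸ A) × (G ⧸ A), ∃ F : Set G, F.Finite ∧ (∀ a ∈ F, a ∈ A ∧ a ≠ 1) ∧
      (p ∉ goodSet φ A → ∀ (N : Subgroup G) [N.Normal] [N.FiniteIndex] (h : N ≤ N.comap φ)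
        (hNA : N ≤ A), (∀ a ∈ F, a ∉ N) →
          M * (solN h ∩ fib hNA p).ncard ≤ (fib hNA p).ncard) := by
    intro p
    by_cases hp : p ∈ goodSet φ A
    · exact ⟨∅, Set.finite_empty, by simp, fun h => absurd hp h⟩
    · obtain ⟨F, h1, h2, h3⟩ := bad_bound hA htf hφA p hp M
      exact ⟨F, h1, h2, fun _ => h3⟩
  choose F hF1 hF2 hF3 using hF
  obtain ⟨N, hN, h, hfi, hNA, hFN⟩ := hres (⋃ p, F p) (Set.finite_iUnion hF1) (by
    intro a ha
    obtain ⟨p, hp⟩ := Set.mem_iUnion.mp ha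
    exact hF2 p a hp)
  obtain ⟨f, hf1, hf2⟩ := fib_card (A := A) hNA
  have : Fintype (G ⧸ N) := Fintype.ofFinite _
  have hle : infTdc φ ≤ tdcFin (QuotientGroup.map N N φ h) := by
    refine csInf_le ⟨0, ?_⟩ ⟨N, hN, h, hfi, rfl⟩
    rintro r ⟨N', _, h', _, rfl⟩
    unfold tdcFin
    positivity
  refine hle.trans ?_
  -- count
  have hsum : (solN h).ncard = ∑ p : (G ⧸ A) × (G ⧸ A), (solN h ∩ fib hNA p).ncard := by
    rw [Set.ncard_eq_toFinset_card' (solN h),
      Finset.card_eq_sum_card_fiberwise (f := fun c => (pr hNA c.1, pr hNA c.2))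
        (t := Finset.univ) (fun _ _ => Finset.mem_univ _)]
    refine Finset.sum_congr rfl fun p _ => ?_
    rw [← Set.ncard_coe_finset]
    congr 1
    ext c
    rw [Finset.mem_coe, Finset.mem_filter, Set.mem_toFinset]
    constructor
    · rintro ⟨h1, h2⟩
      exact ⟨h1, congrArg Prod.fst h2, congrArg Prod.snd h2⟩
    · rintro ⟨h1, h2, h3⟩
      exact ⟨h1, Prod.ext h2 h3⟩
  have hbound : ∀ p : (G ⧸ A) × (G ⧸ A), M * (solN h ∩ fib hNA p).ncard ≤
      (if p ∈ goodSet φ A then M * f ^ 2 else 0) + f ^ 2 := by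
    intro p
    by_cases hp : p ∈ goodSet φ A
    · rw [if_pos hp]
      refine le_trans ?_ (Nat.le_add_right _ _)
      refine Nat.mul_le_mul_left _ ?_
      rw [← hf1 p]
      exact Set.ncard_le_ncard Set.inter_subset_right (Set.toFinite _)
    · rw [if_neg hp, zero_add, ← hf1 p]
      exact hF3 p hp N h hNA (fun a ha => hFN a (Set.mem_iUnion.mpr ⟨p, ha⟩))
  have htotal : M * (solN h).ncard ≤ (goodSet φ A).ncard * (M * f ^ 2) +
      (Nat.card (G ⧸ A)) ^ 2 * f ^ 2 := by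
    rw [hsum, Finset.mul_sum]
    refine (Finset.sum_le_sum fun p _ => hbound p).trans ?_
    rw [Finset.sum_add_distrib, ← Finset.sum_filter, Finset.sum_const, Finset.sum_const,
      Finset.card_univ, Fintype.card_prod, Nat.card_eq_fintype_card]
    have h5 : (Finset.univ.filter (fun p => p ∈ goodSet φ A)).card = (goodSet φ A).ncard := by
      rw [← Set.ncard_coe_finset]
      congr 1
      ext p; simp
    rw [h5, smul_eq_mul, smul_eq_mul, pow_two (Fintype.card (G ⧸ A))]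
  have hCpos : (0 : ℝ) < Nat.card (G ⧸ A) := by exact_mod_cast Nat.card_pos
  have hNpos : (0 : ℝ) < Nat.card (G ⧸ N) := by exact_mod_cast Nat.card_pos
  have hf2R : (Nat.card (G ⧸ A) : ℝ) * f = Nat.card (G ⧸ N) := by exact_mod_cast hf2
  have hMpos : (0 : ℝ) < M := by exact_mod_cast hM
  have htotalR : (M : ℝ) * (solN h).ncard ≤ (goodSet φ A).ncard * (M * (f : ℝ) ^ 2) +
      (Nat.card (G ⧸ A) : ℝ) ^ 2 * (f : ℝ) ^ 2 := by exact_mod_cast htotal
  have hdef : tdcFin (QuotientGroup.map N N φ h) =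
      ((solN h).ncard : ℝ) / (Nat.card (G ⧸ N) : ℝ) ^ 2 := rfl
  rw [hdef, div_add_div _ _ (by positivity) hMpos.ne',
    div_le_div_iff₀ (by positivity) (by positivity)]
  rw [← hf2R] at hNpos ⊢
  have hfpos : (0 : ℝ) < f := (mul_pos_iff_of_pos_left hCpos).mp hNpos
  calc ((solN h).ncard : ℝ) * ((Nat.card (G ⧸ A) : ℝ) ^ 2 * M) =
      (Nat.card (G ⧸ A) : ℝ) ^ 2 * (M * (solN h).ncard) := by ring
    _ ≤ (Nat.card (G ⧸ A) : ℝ) ^ 2 * ((goodSet φ A).ncard * (M * (f : ℝ) ^ 2) +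
      (Nat.card (G ⧸ A) : ℝ) ^ 2 * (f : ℝ) ^ 2) := mul_le_mul_of_nonneg_left htotalR (by positivity)
    _ = _ := by ring

/-- Equality for groups with a suitable abelian subgroup. -/
theorem tdc_eq_infTdc_of [DecidableEq G] [A.FiniteIndex] {X : Finset G}
    (hX : Subgroup.closure (X : Set G) = ⊤)
    (hA : ∀ a ∈ A, ∀ b ∈ A, a * b = b * a)
    (htf : ∀ a ∈ A, a ≠ 1 → ∀ n : ℕ, 0 < n → a ^ n ≠ 1) (hφA : A ≤ A.comap φ)
    (hres : ∀ F : Set G, F.Finite → (∀ a ∈ F, a ∈ A ∧ a ≠ 1) →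
      ∃ (N : Subgroup G) (_ : N.Normal) (_ : N ≤ N.comap φ), N.FiniteIndex ∧ N ≤ A ∧
        ∀ a ∈ F, a ∉ N) : tdc X φ = infTdc φ := by
  classical
  obtain ⟨D, hD⟩ := virt_doubling (one_mem_sym X) (inv_mem_sym X) (closure_sym hX) A hA
  refine le_antisymm ?_ ?_
  · refine le_csInf ?_ ?_
    · exact ⟨_, ⊤, inferInstance, fun x _ => trivial, inferInstance, rfl⟩
    · rintro r ⟨N, _, h, _, rfl⟩
      exact tdc_le_quot hX hD φ N h
  · have : Fintype (G ⧸ A) := Fintype.ofFinite _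
    have h1 : ((goodSet φ A).ncard : ℝ) / (Nat.card (G ⧸ A) : ℝ) ^ 2 ≤ tdc X φ := by
      rw [Set.ncard_eq_toFinset_card' (goodSet φ A)]
      refine le_tdc hX hD φ A _ fun x y hxy => ?_
      rw [Set.mem_toFinset] at hxy
      exact hxy x y rfl rfl
    refine le_of_forall_pos_le_add fun ε hε => ?_
    obtain ⟨M, hM⟩ := exists_nat_one_div_lt hε
    have h2 := infTdc_le hA htf hφA hres (M + 1) (by omega)
    push_cast at h2
    linarith

end Inf

section Structure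

lemma torsion_exponent (C : Type*) [CommGroup C] [Group.FG C] :
    ∃ e : ℕ, 0 < e ∧ ∀ c : C, ∀ n : ℕ, 0 < n → c ^ n = 1 → c ^ e = 1 := by
  have : Module.Finite ℤ (Additive C) := Module.Finite.iff_addGroup_fg.mpr inferInstance
  have hfin : Finite (Submodule.torsion ℤ (Additive C)) :=
    Module.finite_of_fg_torsion _ Submodule.torsion_isTorsion
  refine ⟨Nat.card (Submodule.torsion ℤ (Additive C)), Nat.card_pos, fun c n hn hc => ?_⟩
  have hmem : Additive.ofMul c ∈ Submodule.torsion ℤ (Additive C) := by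
    rw [Submodule.mem_torsion_iff]
    refine ⟨⟨(n : ℤ), ?_⟩, ?_⟩
    · rw [mem_nonZeroDivisors_iff_ne_zero]
      exact_mod_cast hn.ne'
    · show (n : ℤ) • Additive.ofMul c = 0
      rw [natCast_zsmul, ← ofMul_pow, hc]
      rfl
  have h1 : Nat.card (Submodule.torsion ℤ (Additive C)) •
      (⟨Additive.ofMul c, hmem⟩ : Submodule.torsion ℤ (Additive C)) = 0 := card_nsmul_eq_zero'
  have h2 := congrArg Subtype.val h1
  have h3 : Nat.card (Submodule.torsion ℤ (Additive C)) • Additive.ofMul c = 0 := h2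
  rw [← ofMul_pow] at h3
  exact ofMul_eq_zero.mp h3

variable {G : Type*} [Group G]

lemma finiteIndex_of_pow [Group.FG G] {K B : Subgroup G} (hKB : K ≤ B) [B.FiniteIndex]
    (hB : ∀ a ∈ B, ∀ b ∈ B, a * b = b * a) {n : ℕ} (hn : 0 < n) (hpow : ∀ b ∈ B, b ^ n ∈ K) :
    K.FiniteIndex := by
  let _ : CommGroup B := { (inferInstance : Group B) with
    mul_comm := fun a b => Subtype.ext (hB a a.2 b b.2) }
  have hfg : Group.FG B := Subgroup.fg_of_index_ne_zero B
  have hfin : Finite (B ⧸ K.subgroupOf B) := by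
    apply CommGroup.finite_of_fg_isMulTorsion
    intro c
    obtain ⟨b, rfl⟩ := QuotientGroup.mk_surjective c
    rw [isOfFinOrder_iff_pow_eq_one]
    refine ⟨n, hn, ?_⟩
    rw [← QuotientGroup.mk_pow, QuotientGroup.eq_one_iff, Subgroup.mem_subgroupOf]
    exact hpow b b.2
  refine ⟨?_⟩
  rw [← Subgroup.relIndex_mul_index hKB]
  refine mul_ne_zero ?_ Subgroup.FiniteIndex.index_ne_zero
  have : (K.subgroupOf B).FiniteIndex := Subgroup.finiteIndex_of_finite_quotient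
  exact Subgroup.FiniteIndex.index_ne_zero

/-- Existence of a torsion-free abelian, fully invariant subgroup of finite index. -/
lemma exists_verbal [Group.FG G] {H : Subgroup G} [H.FiniteIndex]
    (hH : ∀ a ∈ H, ∀ b ∈ H, a * b = b * a) (φ : G →* G) :
    ∃ A : Subgroup G, A.Normal ∧ A.FiniteIndex ∧ (∀ a ∈ A, ∀ b ∈ A, a * b = b * a) ∧
      (∀ a ∈ A, a ≠ 1 → ∀ n : ℕ, 0 < n → a ^ n ≠ 1) ∧ A ≤ A.comap φ := by
  set C := H.normalCore with hC
  have hCfi : C.FiniteIndex := by rw [hC]; infer_instance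
  have hCn : C.Normal := by rw [hC]; infer_instance
  have hCc : ∀ a ∈ C, ∀ b ∈ C, a * b = b * a := fun a ha b hb =>
    hH a (H.normalCore_le ha) b (H.normalCore_le hb)
  have hfg : Group.FG C := Subgroup.fg_of_index_ne_zero C
  let inst : CommGroup C := { (inferInstance : Group C) with
    mul_comm := fun a b => Subtype.ext (hCc a a.2 b b.2) }
  obtain ⟨e, he, hexp⟩ := @torsion_exponent C inst hfg
  set N : ℕ := C.index * e with hN
  have hNpos : 0 < N := Nat.mul_pos (Nat.pos_of_ne_zero Subgroup.FiniteIndex.index_ne_zero) he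
  let A : Subgroup G := Subgroup.closure (Set.range fun g : G => g ^ N)
  -- the subgroup of e-th powers of C
  let Ce : Subgroup G :=
    { carrier := {g | ∃ c ∈ C, c ^ e = g}
      mul_mem' := by
        rintro _ _ ⟨c, hc, rfl⟩ ⟨d, hd, rfl⟩
        exact ⟨c * d, C.mul_mem hc hd, (Commute.mul_pow (hCc c hc d hd) e)⟩
      one_mem' := ⟨1, C.one_mem, one_pow _⟩
      inv_mem' := by
        rintro _ ⟨c, hc, rfl⟩
        exact ⟨c⁻¹, C.inv_mem hc, inv_pow _ _⟩ }
  have hACe : A ≤ Ce := by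
    refine (Subgroup.closure_le _).mpr ?_
    rintro _ ⟨g, rfl⟩
    refine ⟨g ^ C.index, Subgroup.pow_index_mem C g, ?_⟩
    show (g ^ C.index) ^ e = g ^ N
    rw [← pow_mul]
  have hCeC : Ce ≤ C := by
    rintro _ ⟨c, hc, rfl⟩
    exact C.pow_mem hc e
  have hAC : A ≤ C := hACe.trans hCeC
  have hAn : A.Normal := by
    refine ⟨fun a ha g => ?_⟩
    have h1 : A ≤ A.comap (MulAut.conj g).toMonoidHom := by
      refine (Subgroup.closure_le _).mpr ?_
      rintro _ ⟨x, rfl⟩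
      show (MulAut.conj g) (x ^ N) ∈ A
      rw [map_pow]
      exact Subgroup.subset_closure ⟨_, rfl⟩
    exact h1 ha
  refine ⟨A, hAn, ?_, fun a ha b hb => hCc a (hAC ha) b (hAC hb), ?_, ?_⟩
  · exact finiteIndex_of_pow hAC hCc hNpos (fun b _ => Subgroup.subset_closure ⟨b, rfl⟩)
  · intro a ha ha1 n hn hpow
    obtain ⟨c, hc, rfl⟩ := hACe ha
    apply ha1
    have h2 := hexp ⟨c, hc⟩ (e * n) (Nat.mul_pos he hn) (Subtype.ext (by
      show c ^ (e * n) = 1
      rw [pow_mul]; exact hpow))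
    exact congrArg Subtype.val h2
  · refine (Subgroup.closure_le _).mpr ?_
    rintro _ ⟨g, rfl⟩
    show φ (g ^ N) ∈ A
    rw [map_pow]
    exact Subgroup.subset_closure ⟨_, rfl⟩

/-- The residual property. -/
lemma exists_residual [Group.FG G] {A : Subgroup G} [A.Normal] [A.FiniteIndex]
    (hA : ∀ a ∈ A, ∀ b ∈ A, a * b = b * a)
    (htf : ∀ a ∈ A, a ≠ 1 → ∀ n : ℕ, 0 < n → a ^ n ≠ 1) {φ : G →* G} (hφA : A ≤ A.comap φ)
    (F : Set G) (hF : F.Finite) (hFA : ∀ a ∈ F, a ∈ A ∧ a ≠ 1) :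
    ∃ (N : Subgroup G) (_ : N.Normal) (_ : N ≤ N.comap φ), N.FiniteIndex ∧ N ≤ A ∧
      ∀ a ∈ F, a ∉ N := by
  classical
  let inst : CommGroup A := { (inferInstance : Group A) with
    mul_comm := fun a b => Subtype.ext (hA a a.2 b b.2) }
  have hfg : Group.FG A := Subgroup.fg_of_index_ne_zero A
  have htfA : IsMulTorsionFree A := ⟨fun n hn a b hab => by
    have h1 : (a * b⁻¹) ^ n = 1 := by
      have hab' : a ^ n = b ^ n := hab
      rw [mul_pow, inv_pow, hab', mul_inv_cancel]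
    by_contra hne
    have h2 : (a * b⁻¹ : A) ≠ 1 := fun h => hne (mul_inv_eq_one.mp h)
    refine htf (a * b⁻¹ : A) (a * b⁻¹ : A).2 (fun h => h2 (Subtype.ext h)) n
      (Nat.pos_of_ne_zero hn) ?_
    exact congrArg Subtype.val h1⟩
  have hmf : Module.Finite ℤ (Additive A) := Module.Finite.iff_addGroup_fg.mpr inferInstance
  have hfree : Module.Free ℤ (Additive A) := inferInstance
  let bas := Module.Free.chooseBasis ℤ (Additive A)
  have hcoord : ∀ a : A, a ≠ 1 → ∃ z : ℤ, z ≠ 0 ∧ ∀ (k : ℕ) (b : A), b ^ k = a → (k : ℤ) ∣ z := by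
    intro a ha
    have h1 : Additive.ofMul a ≠ 0 := ha
    have h2 : bas.repr (Additive.ofMul a) ≠ 0 := fun h => h1 (by
      have := congrArg bas.repr.symm h
      rwa [LinearEquiv.symm_apply_apply, map_zero] at this)
    obtain ⟨i, hi⟩ := Finsupp.ne_iff.mp h2
    refine ⟨bas.repr (Additive.ofMul a) i, hi, fun k b hb => ?_⟩
    rw [← hb, ofMul_pow, map_nsmul]
    refine ⟨bas.repr (Additive.ofMul b) i, ?_⟩
    rw [Finsupp.smul_apply, nsmul_eq_mul]
  choose! z hz1 hz2 using hcoord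
  -- the bound k
  obtain ⟨k, hk0, hk⟩ : ∃ k : ℕ, 0 < k ∧ ∀ a : A, (a : G) ∈ F → (z a).natAbs < k := by
    have hfin : {a : A | (a : G) ∈ F}.Finite := by
      refine Set.Finite.of_finite_image (f := Subtype.val) (hF.subset ?_)
        (Subtype.val_injective.injOn)
      rintro _ ⟨a, ha, rfl⟩
      exact ha
    obtain ⟨k, hk⟩ := (hfin.image (fun a => (z a).natAbs)).bddAbove
    refine ⟨k + 1, Nat.succ_pos k, fun a ha => ?_⟩
    exact Nat.lt_succ_of_le (hk ⟨a, ha, rfl⟩)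
  let N : Subgroup G :=
    { carrier := {g | ∃ c ∈ A, c ^ k = g}
      mul_mem' := by
        rintro _ _ ⟨c, hc, rfl⟩ ⟨d, hd, rfl⟩
        exact ⟨c * d, A.mul_mem hc hd, (Commute.mul_pow (hA c hc d hd) k)⟩
      one_mem' := ⟨1, A.one_mem, one_pow _⟩
      inv_mem' := by
        rintro _ ⟨c, hc, rfl⟩
        exact ⟨c⁻¹, A.inv_mem hc, inv_pow _ _⟩ }
  have hNA : N ≤ A := by
    rintro _ ⟨c, hc, rfl⟩
    exact A.pow_mem hc k
  refine ⟨N, ⟨?_⟩, ?_, ?_, hNA, ?_⟩
  · rintro _ ⟨c, hc, rfl⟩ g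
    exact ⟨g * c * g⁻¹, Subgroup.Normal.conj_mem inferInstance c hc g, conj_pow⟩
  · rintro _ ⟨c, hc, rfl⟩
    show φ (c ^ k) ∈ N
    rw [map_pow]
    exact ⟨φ c, hφA hc, rfl⟩
  · exact finiteIndex_of_pow hNA hA hk0 (fun b hb => ⟨b, hb, rfl⟩)
  · rintro a ha ⟨c, hc, hca⟩
    obtain ⟨haA, ha1⟩ := hFA a ha
    have ha1' : (⟨a, haA⟩ : A) ≠ 1 := fun h => ha1 (congrArg Subtype.val h)
    have h1 := hz2 ⟨a, haA⟩ ha1' k ⟨c, hc⟩ (Subtype.ext hca)
    have h2 := hz1 ⟨a, haA⟩ ha1'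
    have h3 := hk ⟨a, haA⟩ ha
    have h4 := Int.natAbs_le_of_dvd_ne_zero h1 h2
    rw [Int.natAbs_natCast] at h4
    omega

end Structure

/-- For a finitely generated virtually abelian group the degree of twisted commutativity is the
infimum over the finite quotients. -/
theorem tdc_eq_infTdc {G : Type*} [Group G]
    (hG : ∃ H : Subgroup G, H.FiniteIndex ∧ ∀ a ∈ H, ∀ b ∈ H, a * b = b * a)
    (X : Finset G) (hX : Subgroup.closure (X : Set G) = ⊤) (φ : G →* G) :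
    tdc X φ = infTdc φ := by
  classical
  obtain ⟨H, hfi, hH⟩ := hG
  have hfg : Group.FG G := Group.fg_iff.mpr ⟨X, hX, X.finite_toSet⟩
  obtain ⟨A, hn, hAfi, hAc, htf, hφA⟩ := exists_verbal hH φ
  exact tdc_eq_infTdc_of hX hAc htf hφA (exists_residual hAc htf hφA)

end Pool.Agent.Tdc637
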