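import Mathlib

/-!
# Doubling balls in groups have small spheres
-/

namespace Pool.Agent.Tdc637

open Filter Topology Pointwise

section Annulus

variable {G : Type*} [Group G] [DecidableEq G] {S : Finset G}

lemma inv_mem_pow (hinv : ∀ x ∈ S, x⁻¹ ∈ S) {n : ℕ} {x : G} (hx : x ∈ S ^ n) : x⁻¹ ∈ S ^ n := by
  induction n generalizing x with
  | zero =>
    rw [pow_zero, Finset.mem_one] at hx ⊢
    rw [hx, inv_one]
  | succ n ih =>
    rw [pow_succ] at hx
    obtain ⟨y, hy, s, hs, rfl⟩ := Finset.mem_mul.mp hx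
    rw [mul_inv_rev, pow_succ']
    exact Finset.mul_mem_mul (hinv s hs) (ih hy)

lemma pow_mono (h1 : (1 : G) ∈ S) {a b : ℕ} (h : a ≤ b) : S ^ a ⊆ S ^ b :=
  Finset.pow_subset_pow_right h1 h

lemma exists_net (h1 : (1 : G) ∈ S) (hinv : ∀ x ∈ S, x⁻¹ ∈ S) (R : Finset G) (r : ℕ) :
    ∃ Z ⊆ R, (∀ z ∈ Z, ∀ z' ∈ Z, z ≠ z' → z⁻¹ * z' ∉ S ^ r) ∧
      (∀ x ∈ R, ∃ z ∈ Z, z⁻¹ * x ∈ S ^ r) := by
  let P : Finset G → Prop := fun Z => ∀ z ∈ Z, ∀ z' ∈ Z, z ≠ z' → z⁻¹ * z' ∉ S ^ r
  classical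
  obtain ⟨Z, hZ, hmax⟩ := Finset.exists_max_image (R.powerset.filter P) Finset.card
    ⟨∅, Finset.mem_filter.mpr ⟨Finset.empty_mem_powerset R, fun z hz => absurd hz (by simp)⟩⟩
  obtain ⟨hZR, hZP⟩ := Finset.mem_filter.mp hZ
  rw [Finset.mem_powerset] at hZR
  refine ⟨Z, hZR, hZP, fun x hx => ?_⟩
  by_contra hcon
  push Not at hcon
  have hxZ : x ∉ Z := fun h => hcon x h (by
    rw [inv_mul_cancel]; exact Finset.one_mem_pow h1)
  have hP : P (insert x Z) := by
    intro z hz z' hz' hne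
    rw [Finset.mem_insert] at hz hz'
    rcases hz with rfl | hz <;> rcases hz' with rfl | hz'
    · exact absurd rfl hne
    · intro h
      have := inv_mem_pow hinv h
      rw [mul_inv_rev, inv_inv] at this
      exact hcon z' hz' this
    · exact hcon z hz
    · exact hZP z hz z' hz' hne
  have h3 := hmax (insert x Z) (Finset.mem_filter.mpr
    ⟨Finset.mem_powerset.mpr (Finset.insert_subset hx hZR), hP⟩)
  rw [Finset.card_insert_of_notMem hxZ] at h3
  omega

/-- The annulus estimate. -/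
lemma annulus (h1 : (1 : G) ∈ S) (hinv : ∀ x ∈ S, x⁻¹ ∈ S) {D : ℕ}
    {k n : ℕ} (hD : (S ^ (6 * k)).card ≤ D * (S ^ k).card) (hn : 4 * k ≤ n) :
    (S ^ n \ S ^ (n - k)).card ≤ D * (S ^ (n - k) \ S ^ (n - 4 * k)).card := by
  obtain ⟨Z, hZR, hsep, hcov⟩ := exists_net h1 hinv (S ^ n \ S ^ (n - k)) (6 * k)
  have hcard1 : (S ^ n \ S ^ (n - k)).card ≤ Z.card * (S ^ (6 * k)).card := by
    calc (S ^ n \ S ^ (n - k)).card ≤ (Z * S ^ (6 * k)).card := by
          refine Finset.card_le_card fun x hx => ?_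
          obtain ⟨z, hz, hzx⟩ := hcov x hx
          have : x = z * (z⁻¹ * x) := by group
          rw [this]
          exact Finset.mul_mem_mul hz hzx
      _ ≤ _ := Finset.card_mul_le
  have hdec : ∀ z ∈ Z, ∃ z' ∈ S ^ (n - 2 * k), ∃ u ∈ S ^ (2 * k), z = z' * u := by
    intro z hz
    have h2 := (Finset.mem_sdiff.mp (hZR hz)).1
    have h3 : S ^ n = S ^ (n - 2 * k) * S ^ (2 * k) := by
      rw [← pow_add]; congr 1; omega
    rw [h3] at h2
    obtain ⟨a, ha, b, hb, hab⟩ := Finset.mem_mul.mp h2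
    exact ⟨a, ha, b, hb, hab.symm⟩
  choose! f hf u hu hfu using hdec
  have hnot : ∀ z ∈ Z, z ∉ S ^ (n - k) := fun z hz => (Finset.mem_sdiff.mp (hZR hz)).2
  have hcard2 : Z.card * (S ^ k).card ≤ (S ^ (n - k) \ S ^ (n - 4 * k)).card := by
    rw [← Finset.card_product]
    refine Finset.card_le_card_of_injOn (fun p => f p.1 * p.2) ?_ ?_
    · rintro ⟨z, w⟩ hp
      rw [Finset.mem_coe, Finset.mem_product] at hp
      obtain ⟨hz, hw⟩ := hp
      rw [Finset.mem_coe, Finset.mem_sdiff]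
      have hz' : z ∈ Z := hz
      have hw' : w ∈ S ^ k := hw
      refine ⟨?_, fun hmem => ?_⟩
      · have h3 : S ^ (n - k) = S ^ (n - 2 * k) * S ^ k := by
          rw [← pow_add]; congr 1; omega
        rw [h3]
        exact Finset.mul_mem_mul (hf z hz') hw'
      · apply hnot z hz'
        have hmem' : f z * w ∈ S ^ (n - 4 * k) := hmem
        have h4 : f z ∈ S ^ (n - 3 * k) := by
          have h5 : f z = (f z * w) * w⁻¹ := by group
          rw [h5]
          have h6 : S ^ (n - 3 * k) = S ^ (n - 4 * k) * S ^ k := by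
            rw [← pow_add]; congr 1; omega
          rw [h6]
          exact Finset.mul_mem_mul hmem' (inv_mem_pow hinv hw')
        rw [hfu z hz']
        have h7 : S ^ (n - k) = S ^ (n - 3 * k) * S ^ (2 * k) := by
          rw [← pow_add]; congr 1; omega
        rw [h7]
        exact Finset.mul_mem_mul h4 (hu z hz')
    · rintro ⟨z, w⟩ hp ⟨z', w'⟩ hp' heq
      rw [Finset.mem_coe, Finset.mem_product] at hp hp'
      have hz : z ∈ Z := hp.1
      have hw : w ∈ S ^ k := hp.2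
      have hz' : z' ∈ Z := hp'.1
      have hw' : w' ∈ S ^ k := hp'.2
      have heq' : f z * w = f z' * w' := heq
      have hzz : z = z' := by
        by_contra hne
        apply hsep z hz z' hz' hne
        have h8 : z⁻¹ * z' = (u z)⁻¹ * (w * w'⁻¹) * u z' := by
          have h9 : (f z)⁻¹ * f z' = w * w'⁻¹ := by
            rw [inv_mul_eq_iff_eq_mul, ← mul_assoc, heq', mul_inv_cancel_right]
          calc z⁻¹ * z' = (f z * u z)⁻¹ * (f z' * u z') := by
                rw [← hfu z hz, ← hfu z' hz']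
            _ = (u z)⁻¹ * ((f z)⁻¹ * f z') * u z' := by group
            _ = _ := by rw [h9]
        rw [h8]
        have h10 : S ^ (6 * k) = S ^ (2 * k) * (S ^ k * S ^ k) * S ^ (2 * k) := by
          rw [← pow_add, ← pow_add, ← pow_add]; congr 1; ring
        rw [h10]
        exact Finset.mul_mem_mul (Finset.mul_mem_mul (inv_mem_pow hinv (hu z hz))
          (Finset.mul_mem_mul hw (inv_mem_pow hinv hw'))) (hu z' hz')
      subst hzz
      have := mul_left_cancel heq'
      rw [this]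
  calc (S ^ n \ S ^ (n - k)).card ≤ Z.card * (S ^ (6 * k)).card := hcard1
    _ ≤ Z.card * (D * (S ^ k).card) := Nat.mul_le_mul_left _ hD
    _ = D * (Z.card * (S ^ k).card) := by ring
    _ ≤ _ := Nat.mul_le_mul_left _ hcard2

/-- Spheres are negligible under doubling. -/
theorem sphere_small (h1 : (1 : G) ∈ S) (hinv : ∀ x ∈ S, x⁻¹ ∈ S) {D : ℕ}
    (hD : ∀ k, 1 ≤ k → (S ^ (6 * k)).card ≤ D * (S ^ k).card) (j n : ℕ) (hj : 4 ^ j ≤ n) :
    (((S ^ n).card : ℝ) - (S ^ (n - 1)).card) ≤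
      ((D : ℝ) / (1 + D)) ^ j * (S ^ n).card := by
  have hb : ∀ {a b : ℕ}, a ≤ b → (((S ^ b) \ (S ^ a)).card : ℝ) = (S ^ b).card - (S ^ a).card := by
    intro a b hab
    rw [Finset.card_sdiff_of_subset (pow_mono h1 hab),
      Nat.cast_sub (Finset.card_le_card (pow_mono h1 hab))]
  have key : ∀ i, i ≤ j → (((S ^ n).card : ℝ) - (S ^ (n - 1)).card) ≤
      ((D : ℝ) / (1 + D)) ^ i * ((S ^ n).card - (S ^ (n - 4 ^ i)).card) := by
    intro i
    induction i with
    | zero => intro _; simp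
    | succ i ih =>
      intro hi
      have h2 := ih (by omega)
      have h4 : 4 ^ (i + 1) ≤ n := (Nat.pow_le_pow_right (by norm_num) hi).trans hj
      have h5 : 4 * 4 ^ i ≤ n := by rw [pow_succ] at h4; omega
      have h6 := annulus h1 hinv (hD (4 ^ i) (Nat.one_le_pow _ _ (by norm_num))) h5
      have h7 : (((S ^ n) \ (S ^ (n - 4 ^ i))).card : ℝ) ≤
          D * ((S ^ (n - 4 ^ i)) \ (S ^ (n - 4 * 4 ^ i))).card := by exact_mod_cast h6
      rw [hb (Nat.sub_le _ _), hb (by omega)] at h7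
      have h8 : n - 4 * 4 ^ i = n - 4 ^ (i + 1) := by rw [pow_succ]; congr 1; ring
      rw [h8] at h7
      refine h2.trans ?_
      rw [pow_succ, mul_assoc]
      refine mul_le_mul_of_nonneg_left ?_ (by positivity)
      rw [div_mul_eq_mul_div, le_div_iff₀ (by positivity)]
      linarith
  refine (key j le_rfl).trans ?_
  refine mul_le_mul_of_nonneg_left ?_ (by positivity)
  have : (0 : ℝ) ≤ (S ^ (n - 4 ^ j)).card := Nat.cast_nonneg _
  linarith

theorem ratio_succ (h1 : (1 : G) ∈ S) (hinv : ∀ x ∈ S, x⁻¹ ∈ S) {D : ℕ}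
    (hD : ∀ k, 1 ≤ k → (S ^ (6 * k)).card ≤ D * (S ^ k).card) :
    Tendsto (fun n => ((S ^ n).card : ℝ) / (S ^ (n + 1)).card) atTop (𝓝 1) := by
  have hpos : ∀ n, (0 : ℝ) < (S ^ n).card := fun n => by
    have : 0 < (S ^ n).card := Finset.card_pos.mpr ⟨1, Finset.one_mem_pow h1⟩
    exact_mod_cast this
  rw [Metric.tendsto_atTop]
  intro ε hε
  have hθ : (D : ℝ) / (1 + D) < 1 := by rw [div_lt_one (by positivity)]; linarith
  obtain ⟨j, hj⟩ := exists_pow_lt_of_lt_one hε hθ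
  refine ⟨4 ^ j, fun n hn => ?_⟩
  have h2 := sphere_small h1 hinv hD j (n + 1) (by omega)
  rw [Nat.add_sub_cancel] at h2
  have h3 : ((S ^ n).card : ℝ) ≤ (S ^ (n + 1)).card := by
    exact_mod_cast Finset.card_le_card (pow_mono h1 (Nat.le_succ n))
  rw [Real.dist_eq, abs_sub_comm, abs_of_nonneg]
  · rw [one_sub_div (hpos _).ne', div_lt_iff₀ (hpos _)]
    exact h2.trans_lt (mul_lt_mul_of_pos_right hj (hpos _))
  · rw [sub_nonneg, div_le_one (hpos _)]
    exact h3

theorem ratio_add (h1 : (1 : G) ∈ S) (hinv : ∀ x ∈ S, x⁻¹ ∈ S) {D : ℕ}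
    (hD : ∀ k, 1 ≤ k → (S ^ (6 * k)).card ≤ D * (S ^ k).card) (r : ℕ) :
    Tendsto (fun n => ((S ^ n).card : ℝ) / (S ^ (n + r)).card) atTop (𝓝 1) := by
  have hpos : ∀ n, (0 : ℝ) < (S ^ n).card := fun n => by
    have : 0 < (S ^ n).card := Finset.card_pos.mpr ⟨1, Finset.one_mem_pow h1⟩
    exact_mod_cast this
  induction r with
  | zero =>
    refine tendsto_const_nhds.congr fun n => ?_
    rw [add_zero, div_self (hpos n).ne']
  | succ r ih =>
    have h2 := (ratio_succ h1 hinv hD).comp (tendsto_add_atTop_nat r)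
    have h3 := ih.mul h2
    rw [one_mul] at h3
    refine h3.congr fun n => ?_
    simp only [Function.comp]
    rw [div_mul_div_cancel₀ (hpos _).ne']
    rfl

end Annulus

end Pool.Agent.Tdc637
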