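import Pool.Agent.Tdc637.Tdc

/-!
# Counting solutions in finite quotients
-/

namespace Pool.Agent.Tdc637

open Filter Topology Pointwise

variable {G : Type*} [Group G]

/-- The twisted commutator. -/
def E (φ : G →* G) (x y : G) : G := x * y * (φ x)⁻¹ * y⁻¹

/-- The increment. -/
def Lf (φ : G →* G) (x y a b : G) : G := a * (x * b * x⁻¹) * (y * (φ a)⁻¹ * y⁻¹) * b⁻¹

lemma E_eq_one {φ : G →* G} {x y : G} : E φ x y = 1 ↔ x * y = y * φ x := by
  unfold E
  rw [mul_inv_eq_one, mul_inv_eq_iff_eq_mul]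

section

variable {φ : G →* G} {A : Subgroup G} [A.Normal] (hA : ∀ a ∈ A, ∀ b ∈ A, a * b = b * a)
  (hφA : A ≤ A.comap φ)

lemma E_step_aux {x y a b : G} :
    E φ (a * x) (b * y) = (a * (x * b * x⁻¹)) * E φ x y * (y * (φ a)⁻¹ * y⁻¹) * b⁻¹ := by
  unfold E
  rw [map_mul]
  group

include hA hφA in
lemma E_step {x y a b : G} (ha : a ∈ A) (hb : b ∈ A) (hE : E φ x y ∈ A) :
    E φ (a * x) (b * y) = E φ x y * Lf φ x y a b := by
  have h1 : x * b * x⁻¹ ∈ A := Subgroup.Normal.conj_mem inferInstance b hb x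
  have h2 : a * (x * b * x⁻¹) ∈ A := A.mul_mem ha h1
  rw [E_step_aux, hA _ h2 _ hE]
  unfold Lf
  simp only [mul_assoc]

include hA hφA in
lemma Lf_congr {x y x' y' a b : G} (ha : a ∈ A) (hb : b ∈ A)
    (hx : (x : G ⧸ A) = x') (hy : (y : G ⧸ A) = y') : Lf φ x y a b = Lf φ x' y' a b := by
  have h1 : x' * x⁻¹ ∈ A := by
    rw [← QuotientGroup.eq_one_iff, QuotientGroup.mk_mul, QuotientGroup.mk_inv, hx, mul_inv_cancel]
  have h2 : y' * y⁻¹ ∈ A := by
    rw [← QuotientGroup.eq_one_iff, QuotientGroup.mk_mul, QuotientGroup.mk_inv, hy, mul_inv_cancel]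
  have h3 : x * b * x⁻¹ ∈ A := Subgroup.Normal.conj_mem inferInstance b hb x
  have h4 : y * (φ a)⁻¹ * y⁻¹ ∈ A :=
    Subgroup.Normal.conj_mem inferInstance _ (A.inv_mem (hφA ha)) y
  have e1 : x' * b * x'⁻¹ = x * b * x⁻¹ := by
    have : x' * b * x'⁻¹ = (x' * x⁻¹) * (x * b * x⁻¹) * (x' * x⁻¹)⁻¹ := by group
    rw [this, hA _ h1 _ h3, mul_inv_cancel_right]
  have e2 : y' * (φ a)⁻¹ * y'⁻¹ = y * (φ a)⁻¹ * y⁻¹ := by
    have : y' * (φ a)⁻¹ * y'⁻¹ = (y' * y⁻¹) * (y * (φ a)⁻¹ * y⁻¹) * (y' * y⁻¹)⁻¹ := by group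
    rw [this, hA _ h2 _ h4, mul_inv_cancel_right]
  unfold Lf
  rw [e1, e2]

end

section Count

variable [DecidableEq G] {φ : G →* G} {A : Subgroup G} [A.Normal]

/-- The projection `G / N → G / A`. -/
def pr {N : Subgroup G} [N.Normal] (hNA : N ≤ A) : G ⧸ N →* G ⧸ A :=
  QuotientGroup.map N A (MonoidHom.id G) hNA

/-- The fiber over a pair of cosets of `A`. -/
def fib {N : Subgroup G} [N.Normal] (hNA : N ≤ A) (p : (G ⧸ A) × (G ⧸ A)) :
    Set ((G ⧸ N) × (G ⧸ N)) := {c | pr hNA c.1 = p.1 ∧ pr hNA c.2 = p.2}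

/-- Solutions in the quotient. -/
def solN {N : Subgroup G} [N.Normal] (h : N ≤ N.comap φ) : Set ((G ⧸ N) × (G ⧸ N)) :=
  {c | c.1 * c.2 = c.2 * QuotientGroup.map N N φ h c.1}

omit [DecidableEq G] in
lemma E_mk_mem {N : Subgroup G} [N.Normal] (h : N ≤ N.comap φ) {x y : G} :
    ((x : G ⧸ N), (y : G ⧸ N)) ∈ solN h ↔ E φ x y ∈ N := by
  rw [← QuotientGroup.eq_one_iff]
  unfold E
  rw [QuotientGroup.mk_mul, QuotientGroup.mk_mul, QuotientGroup.mk_mul, QuotientGroup.mk_inv,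
    QuotientGroup.mk_inv, mul_inv_eq_one, mul_inv_eq_iff_eq_mul]
  rfl

omit [DecidableEq G] in
/-- The bound for bad pairs. -/
theorem bad_bound (hA : ∀ a ∈ A, ∀ b ∈ A, a * b = b * a)
    (htf : ∀ a ∈ A, a ≠ 1 → ∀ n : ℕ, 0 < n → a ^ n ≠ 1) (hφA : A ≤ A.comap φ)
    (p : (G ⧸ A) × (G ⧸ A))
    (hbad : ¬ ∀ x y : G, (x : G ⧸ A) = p.1 → (y : G ⧸ A) = p.2 → x * y = y * φ x) (M : ℕ) :
    ∃ F : Set G, F.Finite ∧ (∀ a ∈ F, a ∈ A ∧ a ≠ 1) ∧
      ∀ (N : Subgroup G) [N.Normal] [N.FiniteIndex] (h : N ≤ N.comap φ) (hNA : N ≤ A),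
        (∀ a ∈ F, a ∉ N) → M * (solN h ∩ fib hNA p).ncard ≤ (fib hNA p).ncard := by
  classical
  by_cases hcl : p.1 * p.2 = p.2 * QuotientGroup.map A A φ hφA p.1
  swap
  · refine ⟨∅, Set.finite_empty, by simp, fun N _ _ h hNA _ => ?_⟩
    have : solN h ∩ fib hNA p = ∅ := by
      rw [Set.eq_empty_iff_forall_notMem]
      rintro ⟨c, d⟩ ⟨h1, h2, h3⟩
      obtain ⟨x, rfl⟩ := QuotientGroup.mk_surjective c
      obtain ⟨y, rfl⟩ := QuotientGroup.mk_surjective d
      apply hcl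
      have h4 : E φ x y ∈ A := hNA ((E_mk_mem h).mp h1)
      have h5 := (E_mk_mem hφA).mpr h4
      have h6 : (x : G ⧸ A) = p.1 := h2
      have h7 : (y : G ⧸ A) = p.2 := h3
      rw [← h6, ← h7]
      exact h5
    rw [this, Set.ncard_empty, mul_zero]
    exact Nat.zero_le _
  -- now `E x y ∈ A` for all representatives
  have hEA : ∀ x y : G, (x : G ⧸ A) = p.1 → (y : G ⧸ A) = p.2 → E φ x y ∈ A := by
    intro x y hx hy
    apply (E_mk_mem hφA).mp
    show (x : G ⧸ A) * (y : G ⧸ A) = (y : G ⧸ A) * QuotientGroup.map A A φ hφA (x : G ⧸ A)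
    rw [hx, hy]; exact hcl
  by_cases hL : ∀ x y : G, (x : G ⧸ A) = p.1 → (y : G ⧸ A) = p.2 → ∀ a ∈ A, ∀ b ∈ A,
      Lf φ x y a b = 1
  · -- constant E
    push Not at hbad
    obtain ⟨x0, y0, hx0, hy0, hne⟩ := hbad
    have hconst : ∀ x y : G, (x : G ⧸ A) = p.1 → (y : G ⧸ A) = p.2 → E φ x y = E φ x0 y0 := by
      intro x y hx hy
      have ha : x * x0⁻¹ ∈ A := by
        rw [← QuotientGroup.eq_one_iff, QuotientGroup.mk_mul, QuotientGroup.mk_inv, hx, hx0,
          mul_inv_cancel]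
      have hb : y * y0⁻¹ ∈ A := by
        rw [← QuotientGroup.eq_one_iff, QuotientGroup.mk_mul, QuotientGroup.mk_inv, hy, hy0,
          mul_inv_cancel]
      have h1 := E_step hA hφA ha hb (hEA x0 y0 hx0 hy0)
      rw [inv_mul_cancel_right, inv_mul_cancel_right, hL x0 y0 hx0 hy0 _ ha _ hb, mul_one] at h1
      exact h1
    refine ⟨{E φ x0 y0}, Set.finite_singleton _, ?_, fun N _ _ h hNA hF => ?_⟩
    · rintro a rfl
      exact ⟨hEA x0 y0 hx0 hy0, fun h => hne (E_eq_one.mp h)⟩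
    · have : solN h ∩ fib hNA p = ∅ := by
        rw [Set.eq_empty_iff_forall_notMem]
        rintro ⟨c, d⟩ ⟨h1, h2, h3⟩
        obtain ⟨x, rfl⟩ := QuotientGroup.mk_surjective c
        obtain ⟨y, rfl⟩ := QuotientGroup.mk_surjective d
        have h4 := (E_mk_mem h).mp h1
        rw [hconst x y h2 h3] at h4
        exact hF _ rfl h4
      rw [this, Set.ncard_empty, mul_zero]
      exact Nat.zero_le _
  · push Not at hL
    obtain ⟨x0, y0, hx0, hy0, a, ha, b, hb, hj⟩ := hL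
    set j := Lf φ x0 y0 a b with hjdef
    have hjA : j ∈ A := by
      have h1 : x0 * b * x0⁻¹ ∈ A := Subgroup.Normal.conj_mem inferInstance b hb x0
      have h4 : y0 * (φ a)⁻¹ * y0⁻¹ ∈ A :=
        Subgroup.Normal.conj_mem inferInstance _ (A.inv_mem (hφA ha)) y0
      exact A.mul_mem (A.mul_mem (A.mul_mem ha h1) h4) (A.inv_mem hb)
    refine ⟨(fun i : ℕ => j ^ (i + 1)) '' {i | i < M}, (Set.finite_lt_nat M).image _, ?_,
      fun N _ _ h hNA hF => ?_⟩
    · rintro _ ⟨i, _, rfl⟩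
      exact ⟨A.pow_mem hjA _, htf j hjA hj (i + 1) (Nat.succ_pos i)⟩
    -- the translation maps
    have hstep : ∀ i : ℕ, ∀ c ∈ fib hNA p, ((a : G ⧸ N) ^ i * c.1, (b : G ⧸ N) ^ i * c.2) ∈
        fib hNA p := by
      intro i c hc
      have h1 : pr hNA (a : G ⧸ N) = 1 := (QuotientGroup.eq_one_iff a).mpr ha
      have h2 : pr hNA (b : G ⧸ N) = 1 := (QuotientGroup.eq_one_iff b).mpr hb
      refine ⟨?_, ?_⟩
      · show pr hNA ((a : G ⧸ N) ^ i * c.1) = p.1
        rw [map_mul, map_pow, h1, one_pow, one_mul]; exact hc.1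
      · show pr hNA ((b : G ⧸ N) ^ i * c.2) = p.2
        rw [map_mul, map_pow, h2, one_pow, one_mul]; exact hc.2
    have hEi : ∀ i : ℕ, ∀ x y : G, (x : G ⧸ A) = p.1 → (y : G ⧸ A) = p.2 →
        E φ (a ^ i * x) (b ^ i * y) = E φ x y * j ^ i := by
      intro i
      induction i with
      | zero => intro x y _ _; simp
      | succ i ih =>
        intro x y hx hy
        have hx' : ((a ^ i * x : G) : G ⧸ A) = p.1 := by
          rw [QuotientGroup.mk_mul, (QuotientGroup.eq_one_iff (a ^ i)).mpr (A.pow_mem ha i),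
            one_mul, hx]
        have hy' : ((b ^ i * y : G) : G ⧸ A) = p.2 := by
          rw [QuotientGroup.mk_mul, (QuotientGroup.eq_one_iff (b ^ i)).mpr (A.pow_mem hb i),
            one_mul, hy]
        rw [pow_succ', pow_succ', mul_assoc, mul_assoc, E_step hA hφA ha hb (hEA _ _ hx' hy'),
          ih x y hx hy, Lf_congr hA hφA ha hb (hx'.trans hx0.symm) (hy'.trans hy0.symm), ← hjdef,
          pow_succ, mul_assoc]
    have hfinf : (fib hNA p).Finite := Set.toFinite _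
    have hinj : Set.InjOn (fun t : ℕ × ((G ⧸ N) × (G ⧸ N)) =>
        ((a : G ⧸ N) ^ t.1 * t.2.1, (b : G ⧸ N) ^ t.1 * t.2.2))
        ({i | i < M} ×ˢ (solN h ∩ fib hNA p)) := by
      have key : ∀ i i' : ℕ, i < i' → i' < M → ∀ c ∈ solN h ∩ fib hNA p,
          ∀ c' ∈ solN h ∩ fib hNA p,
          ((a : G ⧸ N) ^ i * c.1, (b : G ⧸ N) ^ i * c.2) ≠
            ((a : G ⧸ N) ^ i' * c'.1, (b : G ⧸ N) ^ i' * c'.2) := by
        rintro i i' hii' hi'M ⟨c1, c2⟩ ⟨hc1, hc2, hc3⟩ ⟨d1, d2⟩ ⟨hd1, hd2, hd3⟩ heq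
        obtain ⟨x, rfl⟩ := QuotientGroup.mk_surjective c1
        obtain ⟨y, rfl⟩ := QuotientGroup.mk_surjective c2
        obtain ⟨x', rfl⟩ := QuotientGroup.mk_surjective d1
        obtain ⟨y', rfl⟩ := QuotientGroup.mk_surjective d2
        have e1 : ((a ^ i * x : G) : G ⧸ N) = ((a ^ i' * x' : G) : G ⧸ N) := congrArg Prod.fst heq
        have e2 : ((b ^ i * y : G) : G ⧸ N) = ((b ^ i' * y' : G) : G ⧸ N) := congrArg Prod.snd heq
        have e3 : ((E φ (a ^ i * x) (b ^ i * y) : G) : G ⧸ N) =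
            ((E φ (a ^ i' * x') (b ^ i' * y') : G) : G ⧸ N) := by
          unfold E
          simp only [QuotientGroup.mk_mul, QuotientGroup.mk_inv] at e1 e2 ⊢
          have e4 : ((φ (a ^ i * x) : G) : G ⧸ N) = ((φ (a ^ i' * x') : G) : G ⧸ N) := by
            have := congrArg (QuotientGroup.map N N φ h) (show ((a ^ i * x : G) : G ⧸ N) =
              ((a ^ i' * x' : G) : G ⧸ N) from by
                simp only [QuotientGroup.mk_mul]; exact e1)
            exact this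
          rw [e1, e2, e4]
        rw [hEi i x y hc2 hc3, hEi i' x' y' hd2 hd3, QuotientGroup.mk_mul, QuotientGroup.mk_mul,
          (QuotientGroup.eq_one_iff _).mpr ((E_mk_mem h).mp hc1),
          (QuotientGroup.eq_one_iff _).mpr ((E_mk_mem h).mp hd1), one_mul, one_mul] at e3
        apply hF (j ^ (i' - i - 1 + 1)) ⟨i' - i - 1, by
          show i' - i - 1 < M
          omega, rfl⟩
        rw [← QuotientGroup.eq_one_iff]
        have h5 : i' = i + (i' - i - 1 + 1) := by omega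
        rw [h5, pow_add, QuotientGroup.mk_mul] at e3
        have e5 : ((j ^ i : G) : G ⧸ N) * 1 = ((j ^ i : G) : G ⧸ N) *
            ((j ^ (i' - i - 1 + 1) : G) : G ⧸ N) := by rw [mul_one]; exact e3
        exact (mul_left_cancel e5).symm
      rintro ⟨i, c⟩ ⟨hi, hc⟩ ⟨i', c'⟩ ⟨hi', hc'⟩ heq
      rcases lt_trichotomy i i' with hlt | heqi | hgt
      · exact absurd heq (key i i' hlt hi' c hc c' hc')
      · subst heqi
        have h1 : (a : G ⧸ N) ^ i * c.1 = (a : G ⧸ N) ^ i * c'.1 := congrArg Prod.fst heq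
        have h2 : (b : G ⧸ N) ^ i * c.2 = (b : G ⧸ N) ^ i * c'.2 := congrArg Prod.snd heq
        exact Prod.ext rfl (Prod.ext (mul_left_cancel h1) (mul_left_cancel h2))
      · exact absurd heq.symm (key i' i hgt hi c' hc' c hc)
    have hM : ({i : ℕ | i < M} : Set ℕ).ncard = M := by
      have : ({i : ℕ | i < M} : Set ℕ) = ((Finset.range M : Finset ℕ) : Set ℕ) := by
        ext i; simp
      rw [this, Set.ncard_coe_finset, Finset.card_range]
    calc M * (solN h ∩ fib hNA p).ncard =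
          (({i | i < M} : Set ℕ) ×ˢ (solN h ∩ fib hNA p)).ncard := by
          rw [Set.ncard_prod, hM]
      _ ≤ (fib hNA p).ncard := by
          refine Set.ncard_le_ncard_of_injOn _ ?_ hinj hfinf
          rintro ⟨i, c⟩ ⟨_, hc⟩
          exact hstep i c hc.2

end Count

end Pool.Agent.Tdc637
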