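import Pool.Agent.Tdc637.Equi

/-!
# Degree of twisted commutativity: definitions and bounds
-/

namespace Pool.Agent.Tdc637

open Filter Topology Pointwise

/-- The ball of radius `n`: products of at most `n` elements of `X ∪ X⁻¹`. -/
def ball {G : Type*} [Group G] (X : Finset G) (n : ℕ) : Set G :=
  {g | ∃ l : List G, l.length ≤ n ∧ (∀ x ∈ l, x ∈ X ∨ x⁻¹ ∈ X) ∧ l.prod = g}

/-- The degree of twisted commutativity of `G` with respect to `X` and `φ`. -/
noncomputable def tdc {G : Type*} [Group G] (X : Finset G) (φ : G →* G) : ℝ :=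
  limsup (fun n : ℕ =>
    (({p : G × G | p.1 ∈ ball X n ∧ p.2 ∈ ball X n ∧ p.1 * p.2 = p.2 * φ p.1}.ncard : ℕ) : ℝ) /
      (((ball X n).ncard : ℕ) : ℝ) ^ 2) atTop

/-- The degree of twisted commutativity of a finite group. -/
noncomputable def tdcFin {F : Type*} [Group F] (ψ : F →* F) : ℝ :=
  (({p : F × F | p.1 * p.2 = p.2 * ψ p.1}.ncard : ℕ) : ℝ) / ((Nat.card F : ℕ) : ℝ) ^ 2

/-- The infimum of the degrees of twisted commutativity over the finite quotients `G / N` with
`φ(N) ≤ N`. -/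
noncomputable def infTdc {G : Type*} [Group G] (φ : G →* G) : ℝ :=
  sInf {r : ℝ | ∃ (N : Subgroup G) (_ : N.Normal) (h : N ≤ N.comap φ),
    N.FiniteIndex ∧ r = tdcFin (QuotientGroup.map N N φ h)}

variable {G : Type*} [Group G]

section Ball

variable [DecidableEq G]

/-- The symmetrized generating set. -/
def sym (X : Finset G) : Finset G := X ∪ X⁻¹ ∪ {1}

lemma one_mem_sym (X : Finset G) : (1 : G) ∈ sym X :=
  Finset.mem_union_right _ (Finset.mem_singleton_self _)

lemma mem_sym {X : Finset G} {x : G} : x ∈ sym X ↔ (x ∈ X ∨ x⁻¹ ∈ X) ∨ x = 1 := by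
  unfold sym
  rw [Finset.mem_union, Finset.mem_union, Finset.mem_inv', Finset.mem_singleton]

lemma inv_mem_sym (X : Finset G) : ∀ x ∈ sym X, x⁻¹ ∈ sym X := by
  intro x hx
  rw [mem_sym] at hx ⊢
  rw [inv_inv, inv_eq_one]
  tauto

lemma closure_sym {X : Finset G} (hX : Subgroup.closure (X : Set G) = ⊤) :
    Subgroup.closure (sym X : Set G) = ⊤ := by
  rw [eq_top_iff, ← hX]
  refine Subgroup.closure_mono ?_
  intro x hx
  exact Finset.mem_coe.mpr (mem_sym.mpr (Or.inl (Or.inl hx)))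

lemma ball_eq (X : Finset G) (n : ℕ) : ball X n = (((sym X) ^ n : Finset G) : Set G) := by
  ext g
  constructor
  · rintro ⟨l, hl, hlX, rfl⟩
    rw [Finset.mem_coe]
    apply pow_mono (one_mem_sym X) hl
    clear hl
    induction l with
    | nil => simp
    | cons a l ih =>
      rw [List.prod_cons, List.length_cons, pow_succ']
      refine Finset.mul_mem_mul (mem_sym.mpr (Or.inl (hlX a (List.mem_cons_self)))) (ih ?_)
      intro x hx
      exact hlX x (List.mem_cons_of_mem _ hx)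
  · intro hg
    rw [Finset.mem_coe] at hg
    induction n generalizing g with
    | zero =>
      rw [pow_zero, Finset.mem_one] at hg
      exact ⟨[], by simp, by simp, by simp [hg]⟩
    | succ n ih =>
      rw [pow_succ'] at hg
      obtain ⟨s, hs, h, hh, rfl⟩ := Finset.mem_mul.mp hg
      obtain ⟨l, hl, hlX, rfl⟩ := ih h hh
      rcases mem_sym.mp hs with hs' | rfl
      · refine ⟨s :: l, by simpa using hl, ?_, by simp⟩
        intro x hx
        rcases List.mem_cons.mp hx with rfl | hx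
        · exact hs'
        · exact hlX x hx
      · exact ⟨l, by omega, hlX, by simp⟩

end Ball

section Bounds

variable [DecidableEq G]

/-- The number of solutions in the ball. -/
noncomputable def sol (S : Finset G) (φ : G →* G) (n : ℕ) : Finset (G × G) :=
  ((S ^ n) ×ˢ (S ^ n)).filter (fun p => p.1 * p.2 = p.2 * φ p.1)

lemma tdc_eq (X : Finset G) (φ : G →* G) :
    tdc X φ = limsup (fun n : ℕ => ((sol (sym X) φ n).card : ℝ) /
      (((sym X) ^ n).card : ℝ) ^ 2) atTop := by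
  unfold tdc
  congr 1
  funext n
  have h1 : {p : G × G | p.1 ∈ ball X n ∧ p.2 ∈ ball X n ∧ p.1 * p.2 = p.2 * φ p.1} =
      ((sol (sym X) φ n : Finset (G × G)) : Set (G × G)) := by
    ext p
    unfold sol
    rw [ball_eq]
    simp only [Set.mem_ofPred_eq, Finset.mem_coe, Finset.mem_filter, Finset.mem_product, and_assoc]
  rw [h1, Set.ncard_coe_finset, ball_eq, Set.ncard_coe_finset]

lemma ratio_bounds {S : Finset G} (h1 : (1 : G) ∈ S) (φ : G →* G) (n : ℕ) :
    0 ≤ ((sol S φ n).card : ℝ) / ((S ^ n).card : ℝ) ^ 2 ∧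
      ((sol S φ n).card : ℝ) / ((S ^ n).card : ℝ) ^ 2 ≤ 1 := by
  refine ⟨by positivity, ?_⟩
  have hpos : (0 : ℝ) < (S ^ n).card := by
    have : 0 < (S ^ n).card := Finset.card_pos.mpr ⟨1, Finset.one_mem_pow h1⟩
    exact_mod_cast this
  rw [div_le_one (by positivity), pow_two]
  have : (sol S φ n).card ≤ (S ^ n).card * (S ^ n).card := by
    rw [← Finset.card_product]
    exact Finset.card_filter_le _ _
  exact_mod_cast this

/-- Upper bound for the number of solutions by a sum over pairs of cosets. -/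
lemma sol_le {S : Finset G} (φ : G →* G) (N : Subgroup G) [N.Normal] (n : ℕ)
    (P : Finset ((G ⧸ N) × (G ⧸ N)))
    (hP : ∀ x y : G, x * y = y * φ x → ((x : G ⧸ N), (y : G ⧸ N)) ∈ P) :
    (sol S φ n).card ≤ ∑ p ∈ P, cc S N n p.1 * cc S N n p.2 := by
  classical
  rw [Finset.card_eq_sum_card_fiberwise (f := fun p : G × G => ((p.1 : G ⧸ N), (p.2 : G ⧸ N)))
    (t := P)]
  · refine Finset.sum_le_sum fun c _ => ?_
    unfold cc
    rw [← Finset.card_product]
    refine Finset.card_le_card ?_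
    rintro ⟨x, y⟩ hp
    rw [Finset.mem_filter] at hp
    obtain ⟨h1, h2⟩ := hp
    unfold sol at h1
    rw [Finset.mem_filter, Finset.mem_product] at h1
    rw [Finset.mem_product, Finset.mem_filter, Finset.mem_filter]
    exact ⟨⟨h1.1.1, congrArg Prod.fst h2⟩, ⟨h1.1.2, congrArg Prod.snd h2⟩⟩
  · rintro ⟨x, y⟩ hp
    have hp' : (x, y) ∈ sol S φ n := hp
    unfold sol at hp'
    rw [Finset.mem_filter] at hp'
    exact hP x y hp'.2

/-- Lower bound for the number of solutions by a sum over good pairs of cosets. -/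
lemma le_sol {S : Finset G} (φ : G →* G) (N : Subgroup G) [N.Normal] (n : ℕ)
    (P : Finset ((G ⧸ N) × (G ⧸ N)))
    (hP : ∀ x y : G, ((x : G ⧸ N), (y : G ⧸ N)) ∈ P → x * y = y * φ x) :
    ∑ p ∈ P, cc S N n p.1 * cc S N n p.2 ≤ (sol S φ n).card := by
  classical
  have h1 : ∑ p ∈ P, cc S N n p.1 * cc S N n p.2 =
      (P.biUnion fun p => ((S ^ n).filter (fun g => (QuotientGroup.mk g : G ⧸ N) = p.1)) ×ˢ
        ((S ^ n).filter (fun g => (QuotientGroup.mk g : G ⧸ N) = p.2))).card := by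
    rw [Finset.card_biUnion]
    · refine Finset.sum_congr rfl fun p _ => ?_
      rw [Finset.card_product]
      unfold cc
      congr!
    · intro p _ p' _ hne
      rw [Function.onFun, Finset.disjoint_left]
      rintro ⟨x, y⟩ h h'
      rw [Finset.mem_product, Finset.mem_filter, Finset.mem_filter] at h h'
      exact hne (Prod.ext (h.1.2.symm.trans h'.1.2) (h.2.2.symm.trans h'.2.2))
  rw [h1]
  refine Finset.card_le_card ?_
  rintro ⟨x, y⟩ h
  rw [Finset.mem_biUnion] at h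
  obtain ⟨p, hp, h⟩ := h
  rw [Finset.mem_product, Finset.mem_filter, Finset.mem_filter] at h
  unfold sol
  rw [Finset.mem_filter, Finset.mem_product]
  refine ⟨⟨h.1.1, h.2.1⟩, hP x y ?_⟩
  have : ((x : G ⧸ N), (y : G ⧸ N)) = p := Prod.ext h.1.2 h.2.2
  rw [this]; exact hp

lemma tendsto_sum {S : Finset G} (h1 : (1 : G) ∈ S) (hinv : ∀ x ∈ S, x⁻¹ ∈ S)
    (hgen : Subgroup.closure (S : Set G) = ⊤)
    {D : ℕ} (hD : ∀ k, 1 ≤ k → (S ^ (6 * k)).card ≤ D * (S ^ k).card)
    (N : Subgroup G) [N.Normal] [N.FiniteIndex] (P : Finset ((G ⧸ N) × (G ⧸ N))) :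
    Tendsto (fun n => ((∑ p ∈ P, cc S N n p.1 * cc S N n p.2 : ℕ) : ℝ) / ((S ^ n).card : ℝ) ^ 2)
      atTop (𝓝 ((P.card : ℝ) / (Nat.card (G ⧸ N) : ℝ) ^ 2)) := by
  have h2 : Tendsto (fun n => ∑ p ∈ P, ((cc S N n p.1 : ℝ) / (S ^ n).card) *
      ((cc S N n p.2 : ℝ) / (S ^ n).card)) atTop
      (𝓝 (∑ _p ∈ P, (1 / (Nat.card (G ⧸ N) : ℝ)) * (1 / (Nat.card (G ⧸ N) : ℝ)))) :=
    tendsto_finsetSum _ fun p _ => (equidist h1 hinv hgen hD N p.1).mul
      (equidist h1 hinv hgen hD N p.2)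
  have h3 : (∑ _p ∈ P, (1 / (Nat.card (G ⧸ N) : ℝ)) * (1 / (Nat.card (G ⧸ N) : ℝ))) =
      (P.card : ℝ) / (Nat.card (G ⧸ N) : ℝ) ^ 2 := by
    rw [Finset.sum_const, nsmul_eq_mul]
    ring
  rw [h3] at h2
  refine h2.congr fun n => ?_
  rw [Nat.cast_sum, Finset.sum_div]
  refine Finset.sum_congr rfl fun p _ => ?_
  push_cast
  ring

/-- The upper bound by finite quotients. -/
theorem tdc_le_quot {X : Finset G} (hX : Subgroup.closure (X : Set G) = ⊤)
    {D : ℕ} (hD : ∀ k, 1 ≤ k → ((sym X) ^ (6 * k)).card ≤ D * ((sym X) ^ k).card) (φ : G →* G)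
    (N : Subgroup G) [N.Normal] [N.FiniteIndex] (h : N ≤ N.comap φ) :
    tdc X φ ≤ tdcFin (QuotientGroup.map N N φ h) := by
  classical
  have : Fintype (G ⧸ N) := Fintype.ofFinite _
  let P : Finset ((G ⧸ N) × (G ⧸ N)) := Finset.univ.filter
    (fun p => p.1 * p.2 = p.2 * QuotientGroup.map N N φ h p.1)
  have hP : tdcFin (QuotientGroup.map N N φ h) = (P.card : ℝ) / (Nat.card (G ⧸ N) : ℝ) ^ 2 := by
    unfold tdcFin
    congr 2
    rw [← Set.ncard_coe_finset]
    congr 1
    ext p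
    simp [P]
  rw [hP, tdc_eq]
  have hlim := tendsto_sum (one_mem_sym X) (inv_mem_sym X) (closure_sym hX) hD N P
  rw [← hlim.limsup_eq]
  refine limsup_le_limsup ?_ ?_ ?_
  · refine Eventually.of_forall fun n => ?_
    refine div_le_div_of_nonneg_right ?_ (by positivity)
    have h2 := sol_le (S := sym X) φ N n P (fun x y hxy => by
      rw [Finset.mem_filter]
      refine ⟨Finset.mem_univ _, ?_⟩
      show (x : G ⧸ N) * (y : G ⧸ N) = (y : G ⧸ N) * QuotientGroup.map N N φ h (x : G ⧸ N)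
      rw [QuotientGroup.map_mk, ← QuotientGroup.mk_mul, ← QuotientGroup.mk_mul, hxy])
    exact_mod_cast h2
  · exact isCoboundedUnder_le_of_le atTop (fun n => (ratio_bounds (one_mem_sym X) φ n).1)
  · exact hlim.isBoundedUnder_le

/-- The lower bound by good pairs. -/
theorem le_tdc {X : Finset G} (hX : Subgroup.closure (X : Set G) = ⊤)
    {D : ℕ} (hD : ∀ k, 1 ≤ k → ((sym X) ^ (6 * k)).card ≤ D * ((sym X) ^ k).card) (φ : G →* G)
    (N : Subgroup G) [N.Normal] [N.FiniteIndex] (P : Finset ((G ⧸ N) × (G ⧸ N)))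
    (hP : ∀ x y : G, ((x : G ⧸ N), (y : G ⧸ N)) ∈ P → x * y = y * φ x) :
    (P.card : ℝ) / (Nat.card (G ⧸ N) : ℝ) ^ 2 ≤ tdc X φ := by
  classical
  rw [tdc_eq]
  have hlim := tendsto_sum (one_mem_sym X) (inv_mem_sym X) (closure_sym hX) hD N P
  rw [← hlim.limsup_eq]
  refine limsup_le_limsup ?_ ?_ ?_
  · refine Eventually.of_forall fun n => ?_
    refine div_le_div_of_nonneg_right ?_ (by positivity)
    have h2 := le_sol (S := sym X) φ N n P hP
    exact_mod_cast h2
  · exact hlim.isCoboundedUnder_le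
  · exact isBoundedUnder_of ⟨1, fun n => (ratio_bounds (one_mem_sym X) φ n).2⟩

end Bounds

end Pool.Agent.Tdc637
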